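import Mathlib
import Pool.Agent.H77.TF.Def
import Pool.Agent.H77.TF.Stm

/-!
# Project GR: good reduction and freeness in characteristic zero. Definitions and statements

`R` is a discrete valuation ring with fraction field `F` and residue field `k`. An arrangement of planes is
given by forms `A i : Fin 3 → R`; `mapA (algebraMap R F) A` and `mapA (IsLocalRing.residue R) A` are the
arrangements over `F` and `k`. All modules of the project TF may be used (`pri`, `det`,
`Pool.Agent.H27.TF.sai pri det`, …).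
-/

set_option autoImplicit false

open MvPolynomial Module Pool.Agent.H77.TF

namespace Pool.Agent.H77.GR

noncomputable section

/-- The linear form with coefficients `a`. -/
def linR {R : Type} [CommRing R] (a : Fin 3 → R) : MvPolynomial (Fin 3) R := ∑ i, C (a i) * X i

/-- The value of the vector field `v` at the linear form with coefficients `a`. -/
def evlR {R : Type} [CommRing R] (a : Fin 3 → R) (v : Fin 3 → MvPolynomial (Fin 3) R) :
    MvPolynomial (Fin 3) R := ∑ i, C (a i) * v i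

/-- The logarithmic vector fields whose components are homogeneous of degree `m`. -/
def LRm {R : Type} [CommRing R] {ν : Type} (A : ν → Fin 3 → R) (m : ℕ) :
    Submodule R (Fin 3 → MvPolynomial (Fin 3) R) where
  carrier := {v | (∀ i, linR (A i) ∣ evlR (A i) v) ∧ ∀ j, (v j).IsHomogeneous m}
  zero_mem' := ⟨fun i => by simp [evlR], fun j => isHomogeneous_zero _ _ _⟩
  add_mem' := by
    rintro v w ⟨hv, hv'⟩ ⟨hw, hw'⟩
    refine ⟨fun i => ?_, fun j => (hv' j).add (hw' j)⟩
    have : evlR (A i) (v + w) = evlR (A i) v + evlR (A i) w := by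
      simp [evlR, mul_add, Finset.sum_add_distrib]
    rw [this]
    exact dvd_add (hv i) (hw i)
  smul_mem' := by
    rintro c v ⟨hv, hv'⟩
    refine ⟨fun i => ?_, fun j => ?_⟩
    · have : evlR (A i) (c • v) = C c * evlR (A i) v := by
        simp only [evlR, Finset.mul_sum, Pi.smul_apply, smul_eq_C_mul]
        exact Finset.sum_congr rfl fun j _ => by ring
      rw [this]
      exact dvd_mul_of_dvd_right (hv i) _
    · rw [Pi.smul_apply, smul_eq_C_mul]
      simpa using (isHomogeneous_C (Fin 3) c).mul (hv' j)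

theorem linR_eq {K : Type} [Field K] (a : Fin 3 → K) : linR a = lin a := rfl

theorem evlR_eq {K : Type} [Field K] (a : Fin 3 → K) (v : Fin 3 → MvPolynomial (Fin 3) K) :
    evlR a v = evl a v := rfl

theorem mem_LRm {K : Type} [Field K] {ν : Type} {A : ν → Fin 3 → K} {m : ℕ}
    {v : Fin 3 → MvPolynomial (Fin 3) K} :
    v ∈ LRm A m ↔ v ∈ LD A ∧ ∀ j, (v j).IsHomogeneous m := Iff.rfl

/-- Change of the ring for the forms. -/
def mapA {R R' : Type} [CommRing R] [CommRing R'] (f : R →+* R') {ν : Type} (A : ν → Fin 3 → R) :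
    ν → Fin 3 → R' := fun i j => f (A i j)

/-- Change of the ring for the vector fields. -/
def mapV {R R' : Type} [CommRing R] [CommRing R'] (f : R →+* R')
    (v : Fin 3 → MvPolynomial (Fin 3) R) : Fin 3 → MvPolynomial (Fin 3) R' :=
  fun j => MvPolynomial.map f (v j)

/-- Good reduction: modulo the maximal ideal the planes stay distinct, and no independent triple of forms
becomes dependent. -/
def Good {R : Type} [CommRing R] [IsLocalRing R] {ν : Type} (A : ν → Fin 3 → R) : Prop :=
  Simple (mapA (IsLocalRing.residue R) A) ∧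
    ∀ i j l, (Matrix.of ![A i, A j, A l]).det ∈ IsLocalRing.maximalIdeal R →
      (Matrix.of ![A i, A j, A l]).det = 0

/-- The substitution `X_j = - u ∑_{t ≠ j} a_t X_t` (`u` the inverse of `a_j`). -/
def sg {R : Type} [CommRing R] (a : Fin 3 → R) (j : Fin 3) (u : R) :
    MvPolynomial (Fin 3) R →ₐ[R] MvPolynomial (Fin 3) R :=
  aeval fun i => if i = j then - (C u * ∑ t ∈ Finset.univ.erase j, C (a t) * X t) else X i

/-- SBR. Proof: `linR a ∣ f - sg a j u f` by induction on `f`, and `sg a j u (linR a) = 0`. -/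
def S_SBR : Prop :=
  ∀ (R : Type) [CommRing R] (a : Fin 3 → R) (j : Fin 3) (u : R), u * a j = 1 →
    (∀ f, linR a ∣ f ↔ sg a j u f = 0) ∧
    (∀ f m, f.IsHomogeneous m → (sg a j u f).IsHomogeneous m) ∧
    ∀ (R' : Type) [CommRing R'] (φ : R →+* R') (f : MvPolynomial (Fin 3) R),
      MvPolynomial.map φ (sg a j u f) = sg (fun i => φ (a i)) j (φ u) (MvPolynomial.map φ f)

/-- LAG (two variables). Proof by induction on `c`: for `c = {j}` trivial; for `insert j' c` choose a point `x'`,
`lin (b j') (x') = 0`, and a linear form `w` with `w(x') ≠ 0`; then `g - κ (∏_{i ∈ c} lin (b i)) w ^ (e - |c|)` vanishes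
at `x'` for some `κ`, so it is divisible by `lin (b j')`; apply the induction hypothesis to the quotient. -/
def S_LAG : Prop :=
  ∀ (K : Type) [Field K] (ν : Type) [DecidableEq ν] (b : ν → Fin 2 → K) (c : Finset ν),
    (∀ i ∈ c, b i ≠ 0) → (∀ i ∈ c, ∀ j ∈ c, ∀ t : K, b i = t • b j → i = j) → c.Nonempty →
    ∀ (e : ℕ) (g : MvPolynomial (Fin 2) K), g.IsHomogeneous e → c.card ≤ e + 1 →
      ∃ g' : ν → MvPolynomial (Fin 2) K, (∀ i, (g' i).IsHomogeneous (e + 1 - c.card)) ∧
        g = ∑ j ∈ c, g' j * ∏ i ∈ c.erase j, lin (b i)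

/-- EXB. `c` is a set of representatives of the points of the plane `a` on the arrangement. Proof. For `v ∈ LD A` and `i`
let `f = evl (A i) v`, `g = evl a v`. If `A j = s • A i + t • a` (`s ≠ 0`) then `lin (A j)` divides
`lin (A i) g - lin a f` (it divides `s f + t g` and `s lin (A i) + t lin a`), so the product of all these `lin (A j)` does
(PRI); apply `ρ`: `∏ ρ (lin (A j)) ∣ ρ (lin (A i)) ρ g`, and the `ρ (lin (A j))` are multiples of `ρ (lin (A i))`: so
`ρ (lin (A i)) ^ (m_i - 1) ∣ ρ g`, `m_i` the number of these `j`. For different points the `ρ (lin (A i))` are not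
proportional (primes in two variables, PRI). -/
def S_EXB : Prop :=
  ∀ (K : Type) [Field K] (n : ℕ) (A : Fin n → Fin 3 → K) (a : Fin 3 → K) (j₀ : Fin 3)
    (ρ : MvPolynomial (Fin 3) K →ₐ[K] MvPolynomial (Fin 2) K) (c : Finset (Fin n)),
    Simple A → a j₀ ≠ 0 → (∀ i (t : K), A i ≠ t • a) →
    (∀ i, ρ (X (j₀.succAbove i)) = X i) → ρ (lin a) = 0 → (∀ f, ρ f = 0 → lin a ∣ f) →
    (∀ i, ∃ j ∈ c, A i ∈ Submodule.span K {a, A j}) →
    (∀ i ∈ c, ∀ j ∈ c, A i ∈ Submodule.span K {a, A j} → i = j) →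
    ∀ v ∈ LD A, (∏ i ∈ cᶜ, ρ (lin (A i))) ∣ ρ (evl a v)

/-- EXL. Proof (from LAG; `b i` with `lin (b i) = ρ (lin (A i))`). For `j ∈ c` let `η_j ∈ K ^ 3` be a vector with
`A j ⬝ η_j = 0`, `a ⬝ η_j = 1`, and `v = (∏_{i ≠ j} lin (A i)) G η_j`, `G` homogeneous: `v ∈ LD A` and
`ρ (evl a v) = (∏_{i ∈ cᶜ} ρ (lin (A i))) (∏_{i ∈ c, i ≠ j} ρ (lin (A i))) ρ G`; every form is `ρ G` for some `G` (rename). By LAG the
products `∏_{i ∈ c, i ≠ j} ρ (lin (A i))` generate all forms of degree `e ≥ |c| - 1`. For `n = 0` take `v = G η` with `a ⬝ η = 1`. -/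
def S_EXL : Prop :=
  ∀ (K : Type) [Field K] (n : ℕ) (A : Fin n → Fin 3 → K) (a : Fin 3 → K) (j₀ : Fin 3)
    (ρ : MvPolynomial (Fin 3) K →ₐ[K] MvPolynomial (Fin 2) K) (c : Finset (Fin n)),
    Simple A → a j₀ ≠ 0 → (∀ i (t : K), A i ≠ t • a) →
    (∀ i, ρ (X (j₀.succAbove i)) = X i) → ρ (lin a) = 0 →
    (∀ f, ρ (rename j₀.succAbove f) = f) → (∀ f, ρ f = 0 → lin a ∣ f) →
    (∀ i, ∃ j ∈ c, A i ∈ Submodule.span K {a, A j}) →
    (∀ i ∈ c, ∀ j ∈ c, A i ∈ Submodule.span K {a, A j} → i = j) →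
    ∀ (m e : ℕ) (g : MvPolynomial (Fin 2) K), g.IsHomogeneous e → m + c.card = e + n → n ≤ m + 1 →
      ∃ v ∈ LD A, (∀ j, (v j).IsHomogeneous m) ∧ ρ (evl a v) = (∏ i ∈ cᶜ, ρ (lin (A i))) * g

/-- EX1. Proof (from SUB, EXB, EXL): rank and nullity for `v ↦ ρ (evl a v)` on `LRm A m`: the kernel is
`LRm (snoc A a) m`, the range is the product of `∏_{i ∈ cᶜ} ρ (lin (A i))` with the forms of degree `e = m - (n - |c|)` in two
variables, of dimension `e + 1`; `|c|` is the number of the planes of forms `span {a, A i}`. -/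
def S_EX1 : Prop :=
  ∀ (K : Type) [Field K] (n : ℕ) (A : Fin n → Fin 3 → K) (a : Fin 3 → K), Simple A → a ≠ 0 →
    (∀ i (t : K), A i ≠ t • a) → ∀ m : ℕ, n ≤ m + 1 →
    finrank K (LRm (Fin.snoc (α := fun _ => Fin 3 → K) A a : Fin (n + 1) → Fin 3 → K) m) + (m + 1) +
        Nat.card (Set.range fun i => Submodule.span K {a, A i}) =
      finrank K (LRm A m) + n

/-- PAT. Proof: for `i = j` both sides say `l = i`; for `i ≠ j` both say that the determinant of `A i, A j, A l` is zero. -/
def S_PAT : Prop :=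
  ∀ (R : Type) [CommRing R] [IsDomain R] [IsDiscreteValuationRing R] (F : Type) [Field F] [Algebra R F]
    [IsFractionRing R F] (ν : Type) (A : ν → Fin 3 → R), Good A →
    Simple (mapA (algebraMap R F) A) ∧ ∀ i j l,
      mapA (algebraMap R F) A l ∈
          Submodule.span F {mapA (algebraMap R F) A i, mapA (algebraMap R F) A j} ↔
        mapA (IsLocalRing.residue R) A l ∈ Submodule.span (IsLocalRing.ResidueField R)
          {mapA (IsLocalRing.residue R) A i, mapA (IsLocalRing.residue R) A j}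

/-- EX2. Proof (from EX1, PAT): induction on `n` (`Fin.init A`, `A (Fin.last n)`); the numbers of the spans agree by PAT. -/
def S_EX2 : Prop :=
  ∀ (R : Type) [CommRing R] [IsDomain R] [IsDiscreteValuationRing R] (F : Type) [Field F] [Algebra R F]
    [IsFractionRing R F] (n : ℕ) (A : Fin n → Fin 3 → R), Good A → ∀ m : ℕ, n ≤ m + 1 →
    finrank F (LRm (mapA (algebraMap R F) A) m) =
      finrank (IsLocalRing.ResidueField R) (LRm (mapA (IsLocalRing.residue R) A) m)

/-- The logarithmic fields of degree `m` of the reduction can be lifted. -/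
def Lifts {R : Type} [CommRing R] [IsLocalRing R] {ν : Type} (A : ν → Fin 3 → R) (m : ℕ) : Prop :=
  ∀ v ∈ LRm (mapA (IsLocalRing.residue R) A) m, ∃ V ∈ LRm A m, mapV (IsLocalRing.residue R) V = v

/-- RED. Proof (SBR). Every `A i` has a unit coefficient, so `LRm A m` is the kernel of an `R`-linear map `M` between free
modules of finite rank (`v ↦ (sg (evlR (A i) v))_i`), and `LRm` over `F`, `k` are the kernels of `M_F`, `M_k`. The kernel `L` of `M`
is free of rank `dim ker M_F`, `L / π L → ker M_k` is injective (`M` is a map to a torsion-free module), and surjective by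
dimensions. -/
def S_RED : Prop :=
  ∀ (R : Type) [CommRing R] [IsDomain R] [IsDiscreteValuationRing R] (F : Type) [Field F] [Algebra R F]
    [IsFractionRing R F] (ν : Type) [Fintype ν] (A : ν → Fin 3 → R) (m : ℕ),
    (∀ i, mapA (IsLocalRing.residue R) A i ≠ 0) →
    finrank (IsLocalRing.ResidueField R) (LRm (mapA (IsLocalRing.residue R) A) m) ≤
      finrank F (LRm (mapA (algebraMap R F) A) m) → Lifts A m

/-- KOS. (1) `X_0` and `X_1` are coprime. (2) From `X_2 ^ D z₀₁ ∈ (X_0 ^ D, X_1 ^ D)` it follows that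
`z₀₁ = X_0 ^ D τ₁ - X_1 ^ D τ₀` (monomials), then `X_1 ^ D` divides `z₁₂ + X_2 ^ D τ₁`, …. -/
def S_KOS : Prop :=
  ∀ (K : Type) [Field K] (D : ℕ),
    (∀ w : Fin 3 → MvPolynomial (Fin 3) K, (∀ s t, X s ^ D * w t = X t ^ D * w s) →
      ∃ w' : MvPolynomial (Fin 3) K, ∀ t, w t = X t ^ D * w') ∧
    ∀ z : Fin 3 → Fin 3 → MvPolynomial (Fin 3) K, (∀ s t, z s t = - z t s) → (∀ s, z s s = 0) →
      X 0 ^ D * z 1 2 + X 1 ^ D * z 2 0 + X 2 ^ D * z 0 1 = 0 →
      ∃ τ : Fin 3 → MvPolynomial (Fin 3) K, ∀ s t, z s t = X s ^ D * τ t - X t ^ D * τ s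

/-- DEP. Proof (from KOS, PRI). `z s t = X_s ^ D φ_t - X_t ^ D φ_s ∈ LD A`; its coefficients in the basis satisfy the
condition in KOS (2) (`X_0 ^ D z 1 2 + X_1 ^ D z 2 0 + X_2 ^ D z 0 1 = 0`), so `z s t = X_s ^ D τ_t - X_t ^ D τ_s` with
`τ_t ∈ LD A`; `φ'_t = φ_t - τ_t` satisfy `X_s ^ D φ'_t = X_t ^ D φ'_s`, so `φ'_t = X_t ^ D φ` by KOS (1). Then `lin (A i)` divides
`X_t ^ D (y i - evl (A i) φ)` for all `t`, and `lin (A i)` is prime and does not divide all the `X_t`. -/
def S_DEP : Prop :=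
  ∀ (K : Type) [Field K] (ν : Type) (A : ν → Fin 3 → K) (e : Fin 3 → ℕ) (D : ℕ)
    (y : ν → MvPolynomial (Fin 3) K), Simple A → HasExp A e →
    (∀ t : Fin 3, ∃ φ : Fin 3 → MvPolynomial (Fin 3) K, ∀ i, lin (A i) ∣ X t ^ D * y i - evl (A i) φ) →
    ∃ φ : Fin 3 → MvPolynomial (Fin 3) K, ∀ i, lin (A i) ∣ y i - evl (A i) φ

/-- PST. Proof (from DEP). Let `π` be a uniformiser, `f : V → W` the `R`-linear map `v ↦ (evlR (A i) v mod linR (A i))_i` in
degree `m` (as in RED), `C` its cokernel (finitely generated). (a) In large degrees the cokernel has no `π`-torsion: if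
`f x = π y` then `x` reduces to a logarithmic field, which lifts to `V`, `x - V = π x'`, `f x' = y`. (b) Let `f x = π ^ j y` in
degree `m`, `j ≥ 1`. For `D` large and every `t`, `π ^ j` kills the class of `X_t ^ D y`, so it is zero by (a):
`X_t ^ D y = f x_t`; reduce modulo `π` and apply DEP: the class of `y` is in `π C` (take homogeneous components). (c) So the
`π`-power torsion `T` of `C` satisfies `T = π T`, and `T = 0` by Nakayama. (d) If `v` is a logarithmic field of the reduction
in degree `m`, `x` any lift, then `f x = π y`, `π` kills the class of `y`, so `y = f x'` and `x - π x'` is the lift wanted. -/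
def S_PST : Prop :=
  ∀ (R : Type) [CommRing R] [IsDomain R] [IsDiscreteValuationRing R] (ν : Type) [Fintype ν]
    (A : ν → Fin 3 → R) (e : Fin 3 → ℕ) (N : ℕ), Simple (mapA (IsLocalRing.residue R) A) →
    HasExp (mapA (IsLocalRing.residue R) A) e → (∀ m, N ≤ m → Lifts A m) → ∀ m, Lifts A m

/-- FQG. Proof: lift the basis `b̄` to `b_j ∈ LRm A (e j)`. `det (b_j)` reduces to `det (b̄_j) ≠ 0` (linear independence), so it is
not zero over `F`; it is divisible by `∏ lin (A i)` over `F` (DET, PRI) and homogeneous of degree `∑ e j = card ν`, so it is a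
nonzero constant times the product: SAI. -/
def S_FQG : Prop :=
  ∀ (R : Type) [CommRing R] [IsDomain R] [IsDiscreteValuationRing R] (F : Type) [Field F] [Algebra R F]
    [IsFractionRing R F] (ν : Type) [Fintype ν] (A : ν → Fin 3 → R) (e : Fin 3 → ℕ),
    Simple (mapA (algebraMap R F) A) → HasExp (mapA (IsLocalRing.residue R) A) e →
    ∑ j, e j = Fintype.card ν → (∀ m, Lifts A m) → HasExp (mapA (algebraMap R F) A) e

end

end Pool.Agent.H77.GR
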