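import Mathlib

/-!
# Project GR: the numerical condition
-/

set_option autoImplicit false

namespace Pool.Agent.H77.GR

/-- The numerical condition on the number `q` of the elements of the residue field, the number `n` of the planes, the
number `v` of the uncovered points and the exponents `e`. -/
def Crit (q n v : ℕ) (e : Fin 3 → ℕ) : Prop :=
  (v = 0 ∧ e = ![1, q, n - 1 - q]) ∨
    ∃ u w : ℕ, 1 ≤ u ∧ u ≤ w ∧ w ≤ q ∧ u + w + n = 2 * q + 1 ∧ v = u * w ∧ (q - w) * u < q ∧
      e = ![1, q - w, q - u]

end Pool.Agent.H77.GR
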