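import Pool.Agent.H77.GR.Stm
import Pool.Agent.H77.GR.Def
import Pool.Agent.H77.TF.Def2
import Pool.Agent.H77.TF.Stm2
import Pool.Agent.H77.TF.Fin2
import Pool.Agent.H79.TD.Stm

/-!
# Project GR: final assembly
-/

set_option autoImplicit false

open MvPolynomial Module Pool.Agent.H77.TF

namespace Pool.Agent.H77.GR

/-- The final statement of project GR. -/
def S_FING : Prop :=
  ∀ (R : Type) [CommRing R] [IsDomain R] [IsDiscreteValuationRing R]
    [Fintype (IsLocalRing.ResidueField R)] (F : Type) [Field F] [Algebra R F] [IsFractionRing R F]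
    (n : ℕ) (A : Fin n → Fin 3 → R), 1 ≤ n → Good A → ∀ e : Fin 3 → ℕ,
    Crit (Fintype.card (IsLocalRing.ResidueField R)) n (unc (mapA (IsLocalRing.residue R) A)) e →
    HasExp (mapA (algebraMap R F) A) e ∧
      ∀ (m : ℕ) (B : Fin m → Fin 3 → R), Good B →
        Nonempty (Lat (mapA (algebraMap R F) A) ≃o Lat (mapA (algebraMap R F) B)) →
        m = n ∧ HasExp (mapA (algebraMap R F) B) e

theorem sum3 (a b c : ℕ) : ∑ j : Fin 3, (![a, b, c] : Fin 3 → ℕ) j = a + b + c := by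
  rw [Fin.sum_univ_three]
  rfl

/-- Freeness of the reduction implies freeness. -/
theorem transfer (hEX2 : S_EX2) (hRED : S_RED) (hPAT : S_PAT) (hPST : S_PST) (hFQG : S_FQG)
    (R : Type) [CommRing R] [IsDomain R] [IsDiscreteValuationRing R]
    (F : Type) [Field F] [Algebra R F] [IsFractionRing R F]
    (n : ℕ) (A : Fin n → Fin 3 → R) (hA : Good A) (e : Fin 3 → ℕ)
    (he : HasExp (mapA (IsLocalRing.residue R) A) e) (hsum : ∑ j, e j = n) :
    HasExp (mapA (algebraMap R F) A) e := by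
  have h1 : ∀ m, n ≤ m → Lifts A m := by
    intro m hm
    refine hRED R F (Fin n) A m hA.1.1 (le_of_eq ?_)
    exact (hEX2 R F n A hA m (by omega)).symm
  exact hFQG R F (Fin n) A e (hPAT R F (Fin n) A hA).1 he (by rw [Fintype.card_fin]; exact hsum)
    (hPST R (Fin n) A e n hA.1 he h1)

theorem exps_of_crit (hSUF : S_SUF) (hFIN4 : Pool.Agent.H79.TD.S_FIN4) (hDU2 : S_DU2)
    (K : Type) [Field K] [Fintype K] (n : ℕ) (A : Fin n → Fin 3 → K) (hn : 1 ≤ n) (hA : Simple A)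
    (e : Fin 3 → ℕ) (he : Crit (Fintype.card K) n (unc A) e) : HasExp A e ∧ ∑ j, e j = n := by
  rcases he with ⟨h0, rfl⟩ | ⟨u, w, hu, huw, hw, hs, hunc, hlt, rfl⟩
  · rw [hDU2 K 3 (Fin n) A (by norm_num)] at h0
    obtain ⟨h2, h3⟩ := hSUF K 3 (Fin n) A (by norm_num) hA (uncD_eq_zero.1 h0)
    rw [Fintype.card_fin] at h2 h3
    have h4 : expo (Fintype.card K) 3 n = ![1, Fintype.card K, n - 1 - Fintype.card K] := by
      ext j
      fin_cases j
      · simp [expo]
      · simp [expo]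
      · simp [expo, Finset.sum_range_succ, Nat.sub_sub]
    rw [h4] at h2
    refine ⟨h2, ?_⟩
    simp only [Finset.sum_range_succ, Finset.sum_range_zero, Nat.reduceSub, zero_add, pow_zero,
      pow_one] at h3
    rw [sum3]
    omega
  · refine ⟨((hFIN4 K).1 n A hn hA).2 u w hu huw hs hunc |>.2.2 hlt, ?_⟩
    rw [sum3]
    omega

theorem fing_of (hSUF : S_SUF) (hFIN4 : Pool.Agent.H79.TD.S_FIN4) (hBIJ : S_BIJ) (hLT2 : S_LT2)
    (hDU2 : S_DU2) (hEX2 : S_EX2) (hRED : S_RED) (hPAT : S_PAT) (hPST : S_PST) (hFQG : S_FQG) :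
    S_FING := by
  intro R _ _ _ _ F _ _ _ n A hn hA e he
  have key : ∀ (B : Fin n → Fin 3 → R), Good B →
      Crit (Fintype.card (IsLocalRing.ResidueField R)) n (unc (mapA (IsLocalRing.residue R) B)) e →
      HasExp (mapA (algebraMap R F) B) e := by
    intro B hB h
    obtain ⟨h1, h2⟩ := exps_of_crit hSUF hFIN4 hDU2 (IsLocalRing.ResidueField R) n _ hn hB.1 e h
    exact transfer hEX2 hRED hPAT hPST hFQG R F n B hB e h1 h2
  refine ⟨key A hA he, ?_⟩
  intro m B hB hiso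
  obtain ⟨hA1, hA2⟩ := hPAT R F (Fin n) A hA
  obtain ⟨hB1, hB2⟩ := hPAT R F (Fin m) B hB
  obtain ⟨β, hβ⟩ := hBIJ F 3 n m _ _ hA1 hB1 hiso
  have hmn : m = n := by
    have := Fintype.card_congr β
    rw [Fintype.card_fin, Fintype.card_fin] at this
    exact this.symm
  have hu := hLT2 (IsLocalRing.ResidueField R) 3 n m _ _ hA.1 hB.1 β (fun i j k =>
    (hA2 i j k).symm.trans ((hβ i j k).trans (hB2 (β i) (β j) (β k))))
  refine ⟨hmn, ?_⟩
  subst hmn
  refine key B hB ?_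
  rw [hDU2 _ 3 _ _ (by norm_num), ← hu, ← hDU2 _ 3 _ _ (by norm_num)]
  exact he

end Pool.Agent.H77.GR
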