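import Pool.Agent.H77.TF.Pri
import Pool.Agent.H77.TF.Det
import Pool.Agent.H77.TF.Gc3
import Pool.Agent.H77.TF.Bp3
import Pool.Agent.H10.TF.Grd
import Pool.Agent.H12.TF.Cif
import Pool.Agent.H27.TF.Sai
import Pool.Agent.H27.TF.Dd3
import Pool.Agent.H40.TF.Bij
import Pool.Agent.H40.TF.Lt2
import Pool.Agent.H64.TF.CFS
import Pool.Agent.H6.TC.Mr3s
import Pool.Agent.H83.TF.Du2
import Pool.Agent.H91.TF.Kr3
import Pool.Agent.H79.TD.Stm
import Pool.Agent.H79.TD.Fin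
import Pool.Agent.H1.TD.Num
import Pool.Agent.H6.TD.Cor
import Pool.Agent.H15.TD.FRE
import Pool.Agent.H22.TD.Bez
import Pool.Agent.H23.TD.Szb
import Pool.Agent.H27.TD.Rep
import Pool.Agent.H39.TD.Brk
import Pool.Agent.H53.TD.DIM
import Pool.Agent.H53.TD.DU3
import Pool.Agent.H76.TD.Inq

/-!
# The theorem of project TD (assembly by helper79)
-/

set_option autoImplicit false

open MvPolynomial Module Pool.Agent.H77.TF Pool.Agent.H79.TD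

namespace Pool.Agent.H77.GR

theorem fin4 : Pool.Agent.H79.TD.S_FIN4 := by
  have hPRI : S_PRI := pri
  have hDET : S_DET := det
  have hSAI : S_SAI := Pool.Agent.H27.TF.sai hPRI hDET
  have hCFS : S_CFS := Pool.Agent.H64.TF.cfs
  have hDD3 : S_DD3 := Pool.Agent.H27.TF.dd3 hPRI hDET
  have hMR3 : S_MR3 := Pool.Agent.H6.TC.mr3
  have hGC3 : S_GC3 := gc3
  have hKR3 : S_KR3 := Pool.Agent.H91.TF.kr3 hGC3
  have hCIF : S_CIF := Pool.Agent.H12.TF.cif hDD3 hMR3 hGC3 hCFS hPRI hDET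
  have hDIM : Pool.Agent.H79.TD.S_DIM := Pool.Agent.H53.TD.t_DIM
  have hREP : S_REP := Pool.Agent.H27.TD.t_REP
  have hSUM : S_SUM := Pool.Agent.H27.TD.t_SUM
  have hDU3 : S_DU3 := Pool.Agent.H53.TD.t_DU3 hDIM hREP hSUM
  have hCOR : S_COR := Pool.Agent.H6.TD.t_COR
  have hBRK : S_BRK := Pool.Agent.H39.TD.t_BRK hDD3 hMR3 hKR3 hCOR
  have hFRE : S_FRE := Pool.Agent.H15.TD.t_FRE hDD3 hMR3 hKR3 hSAI hPRI hCOR
  have hINQ : S_INQ := Pool.Agent.H76.TD.t_INQ hDIM hDU3 hBRK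
  have hNUM : S_NUM := Pool.Agent.H1.TD.t_NUM hDIM hDU3 hINQ
  have hBEZ : S_BEZ := Pool.Agent.H22.TD.t_BEZ hDIM hREP hGC3
  have hCHI : S_CHI := Pool.Agent.H6.TD.t_CHI hBEZ hINQ hGC3
  have hSZB : Pool.Agent.H79.TD.S_SZB := Pool.Agent.H23.TD.t_SZB hREP
  exact fin4_of hNUM hFRE hCHI hSZB Pool.Agent.H10.TF.grd hCIF bp3 Pool.Agent.H40.TF.bij
    Pool.Agent.H40.TF.lt2 Pool.Agent.H83.TF.du2

end Pool.Agent.H77.GR
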